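import Pool.Agent.J6H52.Jump.Primes

/-!
# The jump inequality for a set of integers, from a second moment at the smallest scale
-/

set_option autoImplicit false

open Finset Filter Topology

namespace Pool.Agent.J6H52.JumpT

open Pool.Agent.J6H52.Jump

open Classical in
/-- the number of elements of `A` in `(a, b]` -/
noncomputable def N (A : Set ℕ) (a b : ℕ) : ℕ := ((Ioc a b).filter (fun m => m ∈ A)).card

/-- the density of `A` in `(n, n + y]`, in units of `1 / log ^ k n` -/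
noncomputable def R (A : Set ℕ) (k n : ℕ) (y : ℝ) : ℝ :=
  (N A n (n + ⌊y⌋₊) : ℝ) / (y / Real.log n ^ k)

open Classical in
/-- indicator function of `A` in `(X, X + U]` -/
noncomputable def ind (A : Set ℕ) (X U j : ℕ) : ℝ := if j < U ∧ X + j + 1 ∈ A then 1 else 0

lemma ind_nonneg (A : Set ℕ) (X U j : ℕ) : 0 ≤ ind A X U j := by
  unfold ind; split_ifs <;> norm_num

lemma ind_le_one (A : Set ℕ) (X U j : ℕ) : ind A X U j ≤ 1 := by
  unfold ind; split_ifs <;> norm_num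

open Classical in
/-- a block is contained in a window -/
lemma block_le {A : Set ℕ} {X U Y : ℕ} {P : ℕ → Prop}
    (hP : ∀ j, j < U → X + j + 1 ∈ A → P (Y + j + 1)) {b l j M : ℕ} (h1 : j ≤ b)
    (h2 : b + l ≤ j + M) : ∑ r ∈ range l, ind A X U (b + r) ≤
      (((Ioc (Y + j) (Y + j + M)).filter P).card : ℝ) := by
  have e1 : ∑ r ∈ range l, ind A X U (b + r) =
      (((range l).filter fun r => b + r < U ∧ X + (b + r) + 1 ∈ A).card : ℝ) := by
    rw [← sum_boole]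
    rfl
  rw [e1]
  have h3 : ((range l).filter fun r => b + r < U ∧ X + (b + r) + 1 ∈ A).card ≤
      ((Ioc (Y + j) (Y + j + M)).filter P).card := by
    apply card_le_card_of_injOn (fun r => Y + (b + r) + 1)
    · intro r hr
      rw [mem_coe, mem_filter, mem_range] at hr
      rw [mem_coe, mem_filter, mem_Ioc]
      beta_reduce
      exact ⟨⟨by omega, by omega⟩, hP _ hr.2.1 hr.2.2⟩
    · intro r _ s _ hrs
      simp only at hrs
      omega
  exact_mod_cast h3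

lemma block_zero {A : Set ℕ} {X U : ℕ} {b l : ℕ} (h : U ≤ b) :
    ∑ r ∈ range l, ind A X U (b + r) = 0 := by
  refine sum_eq_zero fun r _ => ?_
  unfold ind
  rw [if_neg (by omega)]

lemma block_card (A : Set ℕ) (X U b l : ℕ) :
    ∑ r ∈ range l, ind A X U (b + r) ≤ l := by
  refine (sum_le_sum fun r _ => ind_le_one _ _ _ _).trans ?_
  simp

lemma block_nonneg (A : Set ℕ) (X U b l : ℕ) : 0 ≤ ∑ r ∈ range l, ind A X U (b + r) :=
  sum_nonneg fun _ _ => ind_nonneg _ _ _ _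

open Classical in
/-- the second moment of the blocks is bounded by the one of the windows -/
lemma blocks_sq {A : Set ℕ} {X Y : ℕ} {P : ℕ → Prop}
    (hP : ∀ j, j < Y → X + j + 1 ∈ A → P (Y + j + 1)) {k0 L M : ℕ} (hM : 2 * 2 ^ k0 ≤ M)
    {D : ℝ} (hD : ∑ n ∈ Ico Y (2 * Y + 1),
      ((((Ioc n (n + M)).filter P).card : ℕ) : ℝ) ^ 2 ≤ D) :
    ∑ i ∈ range (2 ^ L), (∑ r ∈ range (2 ^ k0), ind A X Y (2 ^ k0 * i + r)) ^ 2 ≤
      (2 ^ k0) ^ 2 + D / 2 ^ k0 := by
  have hp : (0 : ℝ) < 2 ^ k0 := by positivity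
  have hp1 : 1 ≤ 2 ^ k0 := Nat.one_le_two_pow
  set c : ℕ → ℝ := fun i => (∑ r ∈ range (2 ^ k0), ind A X Y (2 ^ k0 * i + r)) ^ 2 with hc
  set W : ℕ → ℝ := fun j => if j ≤ Y then
    ((((Ioc (Y + j) (Y + j + M)).filter P).card : ℕ) : ℝ) ^ 2 else 0 with hW
  have hW0 : ∀ j, 0 ≤ W j := by
    intro j
    simp only [hW]
    split_ifs
    · positivity
    · exact le_rfl
  have hc0 : c 0 ≤ (2 ^ k0) ^ 2 := by
    have h1 := block_card A X Y (2 ^ k0 * 0) (2 ^ k0)
    push_cast at h1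
    exact pow_le_pow_left₀ (block_nonneg _ _ _ _ _) h1 2
  have hc1 : ∀ i r, r < 2 ^ k0 → c (i + 1) ≤ W (2 ^ k0 * i + (r + 1)) := by
    intro i r hr
    by_cases hb : 2 ^ k0 * (i + 1) < Y
    · have e : 2 ^ k0 * (i + 1) = 2 ^ k0 * i + 2 ^ k0 := by ring
      have h1 : 2 ^ k0 * i + (r + 1) ≤ 2 ^ k0 * (i + 1) := by omega
      have h2 : 2 ^ k0 * (i + 1) + 2 ^ k0 ≤ 2 ^ k0 * i + (r + 1) + M := by omega
      simp only [hW, hc]
      rw [if_pos (by omega)]
      exact pow_le_pow_left₀ (block_nonneg _ _ _ _ _) (block_le hP h1 h2) 2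
    · have h1 : c (i + 1) = 0 := by
        simp only [hc]
        rw [block_zero (by omega)]
        norm_num
      rw [h1]
      exact hW0 _
  have hc2 : ∀ i, c (i + 1) ≤ (∑ r ∈ range (2 ^ k0), W (2 ^ k0 * i + (r + 1))) / 2 ^ k0 := by
    intro i
    rw [le_div_iff₀ hp]
    have h1 : ∑ r ∈ range (2 ^ k0), c (i + 1) ≤
        ∑ r ∈ range (2 ^ k0), W (2 ^ k0 * i + (r + 1)) :=
      sum_le_sum fun r hr => hc1 i r (mem_range.1 hr)
    rw [sum_const, card_range, nsmul_eq_mul] at h1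
    push_cast at h1
    rw [mul_comm]
    exact h1
  have h3 : ∑ i ∈ range (2 ^ L), c i ≤ c 0 + ∑ i ∈ range (2 ^ L), c (i + 1) := by
    have h4 := sum_range_succ' c (2 ^ L)
    have h5 : ∑ i ∈ range (2 ^ L), c i ≤ ∑ i ∈ range (2 ^ L + 1), c i :=
      sum_le_sum_of_subset_of_nonneg (by
        intro x hx
        rw [mem_range] at hx ⊢
        omega) fun i _ _ => sq_nonneg _
    linarith
  have h6 : ∑ i ∈ range (2 ^ L), ∑ r ∈ range (2 ^ k0), W (2 ^ k0 * i + (r + 1)) ≤ D := by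
    refine le_trans ?_ hD
    have h7 : ∑ i ∈ range (2 ^ L), ∑ r ∈ range (2 ^ k0), W (2 ^ k0 * i + (r + 1)) =
        ∑ j ∈ range (2 ^ (k0 + L)), W (j + 1) := by
      rw [pow_add, sum_blocks]
      rfl
    rw [h7]
    have h8 : ∑ j ∈ range (2 ^ (k0 + L)), W (j + 1) ≤ ∑ j ∈ range (Y + 1), W j := by
      have h9 : ∑ j ∈ range (2 ^ (k0 + L)), W (j + 1) ≤
          ∑ j ∈ range (2 ^ (k0 + L) + Y + 1), W j := by
        rw [show 2 ^ (k0 + L) + Y + 1 = (2 ^ (k0 + L) + Y) + 1 by ring, sum_range_succ']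
        have h10 : ∑ j ∈ range (2 ^ (k0 + L)), W (j + 1) ≤
            ∑ j ∈ range (2 ^ (k0 + L) + Y), W (j + 1) :=
          sum_le_sum_of_subset_of_nonneg (by
            intro x hx
            rw [mem_range] at hx ⊢
            omega) fun i _ _ => hW0 _
        have := hW0 0
        linarith
      refine h9.trans (le_of_eq ?_)
      symm
      have h2L : 1 ≤ 2 ^ (k0 + L) := Nat.one_le_two_pow
      apply sum_subset
      · intro x hx
        rw [mem_range] at hx ⊢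
        omega
      · intro x _ hx
        rw [mem_range] at hx
        simp only [hW]
        rw [if_neg (by omega)]
    refine h8.trans (le_of_eq ?_)
    rw [sum_Ico_eq_sum_range, show 2 * Y + 1 - Y = Y + 1 by omega]
    apply sum_congr rfl
    intro j hj
    rw [mem_range] at hj
    simp only [hW]
    rw [if_pos (by omega)]
  calc ∑ i ∈ range (2 ^ L), c i ≤ c 0 + ∑ i ∈ range (2 ^ L), c (i + 1) := h3
    _ ≤ (2 ^ k0) ^ 2 + ∑ i ∈ range (2 ^ L),
        (∑ r ∈ range (2 ^ k0), W (2 ^ k0 * i + (r + 1))) / 2 ^ k0 :=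
        add_le_add hc0 (sum_le_sum fun i _ => hc2 i)
    _ = (2 ^ k0) ^ 2 + (∑ i ∈ range (2 ^ L),
        ∑ r ∈ range (2 ^ k0), W (2 ^ k0 * i + (r + 1))) / 2 ^ k0 := by rw [sum_div]
    _ ≤ _ := by gcongr

lemma energy {A : Set ℕ} {X Y k0 L : ℕ} {K D : ℝ}
    (h : ∑ i ∈ range (2 ^ L), (∑ r ∈ range (2 ^ k0), ind A X Y (2 ^ k0 * i + r)) ^ 2 ≤ D) :
    ∑ n ∈ range (2 ^ (k0 + L)), E k0 (fun j => K * ind A X Y j) n ^ 2 ≤ K ^ 2 / 2 ^ k0 * D := by
  rw [energy_eq]
  have h1 : ∑ i ∈ range (2 ^ L), (∑ r ∈ range (2 ^ k0), K * ind A X Y (2 ^ k0 * i + r)) ^ 2 /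
      2 ^ k0 = K ^ 2 / 2 ^ k0 *
        ∑ i ∈ range (2 ^ L), (∑ r ∈ range (2 ^ k0), ind A X Y (2 ^ k0 * i + r)) ^ 2 := by
    rw [mul_sum]
    apply sum_congr rfl
    intro i _
    rw [← mul_sum]
    ring
  rw [h1]
  gcongr

open Classical in
lemma N_sum (A : Set ℕ) (n m : ℕ) : (N A n (n + m) : ℝ) =
    ∑ r ∈ range m, if n + r + 1 ∈ A then (1 : ℝ) else 0 := by
  unfold N
  rw [sum_boole]
  congr 1
  symm
  apply card_bij (fun r _ => n + r + 1)
  · intro r hr
    rw [mem_filter, mem_range] at hr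
    rw [mem_filter, mem_Ioc]
    exact ⟨by omega, hr.2⟩
  · intro r _ s _ h
    omega
  · intro x hx
    rw [mem_filter, mem_Ioc] at hx
    refine ⟨x - n - 1, ?_, by omega⟩
    rw [mem_filter, mem_range]
    have e : n + (x - n - 1) + 1 = x := by omega
    rw [e]
    exact ⟨by omega, hx.2⟩

lemma R_eq {A : Set ℕ} {k X H m : ℕ} (hX : 3 ≤ X) (hm : m ≤ H) {y : ℝ} (hy0 : 0 < y)
    (hy : y ≤ H) : R A k (X + m) y =
      Real.log ((X + m : ℕ) : ℝ) ^ k / (2 * Real.log X) ^ k *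
        AR (fun j => (2 * Real.log X) ^ k * ind A X (2 * H) j) m y := by
  classical
  have hX3 : (3 : ℝ) ≤ X := by exact_mod_cast hX
  have hlX : 0 < Real.log X := Real.log_pos (by linarith)
  have hfl : ⌊y⌋₊ ≤ H := by
    have := Nat.floor_mono hy
    rwa [Nat.floor_natCast] at this
  have e3 : S (fun j => (2 * Real.log X) ^ k * ind A X (2 * H) j) (m + ⌊y⌋₊) -
      S (fun j => (2 * Real.log X) ^ k * ind A X (2 * H) j) m =
      (2 * Real.log X) ^ k * (N A (X + m) (X + m + ⌊y⌋₊) : ℝ) := by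
    rw [S_range, ← mul_sum, N_sum]
    congr 1
    apply sum_congr rfl
    intro r hr
    rw [mem_range] at hr
    unfold ind
    have : m + r < 2 * H := by omega
    simp only [this, true_and, ← add_assoc]
  rw [R, AR, e3]
  field_simp

open Classical in
/-- **The jump inequality for a set of integers**, from the second moment of the numbers of its
elements in windows of a length of the order `log ^ k X`. -/
theorem main {A : Set ℕ} {k X H : ℕ} {P : ℕ → Prop}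
    (hP : ∀ j, j < 2 * H → X + j + 1 ∈ A → P (2 * H + j + 1)) (hX : 3 ≤ X) (hH : 1 ≤ H)
    (hHX : H ≤ X) (hL2 : 2 ≤ Real.log X ^ k) (hLH : Real.log X ^ k ≤ H)
    (hL3 : Real.log X ^ (3 * k) ≤ H) {C : ℝ} (hC : 0 ≤ C)
    (hD : ∑ n ∈ Ico (2 * H) (2 * (2 * H) + 1),
      ((((Ioc n (n + ⌊Real.log X ^ k⌋₊)).filter P).card : ℕ) : ℝ) ^ 2 ≤ C * ((2 * H : ℕ) : ℝ))
    {ε : ℝ} (hε : 0 < ε) {J : ℕ → ℕ}
    (hJ : ∀ n ∈ Ioc X (X + H), Jumps (R A k n) ε (Real.log X ^ k) H (J n)) :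
    ∑ n ∈ Ioc X (X + H), (J n : ℝ) ≤ 3400000 * (4 ^ k * (16 * C + 1)) / ε ^ 2 * H := by
  classical
  have hX3 : (3 : ℝ) ≤ X := by exact_mod_cast hX
  have hlX1 : 1 ≤ Real.log X := by
    rw [Real.le_log_iff_exp_le (by linarith)]
    linarith [Real.exp_one_lt_d9]
  set L0 : ℝ := Real.log X ^ k with hL0
  set M := ⌊L0⌋₊ with hM
  have hM2 : 2 ≤ M := Nat.le_floor (by push_cast; exact hL2)
  have hML : (M : ℝ) ≤ L0 := Nat.floor_le (by linarith)
  have hML2 : L0 < M + 1 := Nat.lt_floor_add_one _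
  obtain ⟨k0, hk0⟩ : ∃ k0, Nat.log 2 M = k0 + 1 := by
    refine ⟨Nat.log 2 M - 1, ?_⟩
    have : 1 ≤ Nat.log 2 M := Nat.log_pos (by norm_num) hM2
    omega
  have hk1 : 2 * 2 ^ k0 ≤ M := by
    have := Nat.pow_log_le_self 2 (show M ≠ 0 by omega)
    rw [hk0, pow_succ] at this
    omega
  have hk2 : M + 1 ≤ 4 * 2 ^ k0 := by
    have := Nat.lt_pow_succ_log_self (b := 2) (by norm_num) M
    rw [hk0, pow_succ, pow_succ] at this
    omega
  have hk1r : (2 : ℝ) * 2 ^ k0 ≤ L0 := by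
    have : ((2 * 2 ^ k0 : ℕ) : ℝ) ≤ M := by exact_mod_cast hk1
    push_cast at this
    linarith
  have hk2r : L0 ≤ 4 * 2 ^ k0 := by
    have : ((M + 1 : ℕ) : ℝ) ≤ ((4 * 2 ^ k0 : ℕ) : ℝ) := by exact_mod_cast hk2
    push_cast at this
    linarith
  have hp : (0 : ℝ) < 2 ^ k0 := by positivity
  have hk3r : (2 : ℝ) ^ k0 ≤ L0 := by linarith
  -- the blocks
  set K := Nat.log 2 (2 * H) + 1 with hK
  have hK1 : 2 * H < 2 ^ K := Nat.lt_pow_succ_log_self (by norm_num) _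
  have hK2 : 2 ^ K ≤ 4 * H := by
    have := Nat.pow_log_le_self 2 (show 2 * H ≠ 0 by omega)
    rw [hK, pow_succ]; omega
  have hkK : k0 ≤ K := by
    have h3 : (2 : ℝ) ^ k0 < ((2 ^ K : ℕ) : ℝ) := by
      have h4 : (2 : ℝ) * H < ((2 ^ K : ℕ) : ℝ) := by exact_mod_cast hK1
      have : (0 : ℝ) ≤ H := Nat.cast_nonneg _
      linarith
    have h4 : 2 ^ k0 < 2 ^ K := by exact_mod_cast h3
    exact ((Nat.pow_lt_pow_iff_right (by norm_num)).1 h4).le
  obtain ⟨L, hL⟩ := Nat.exists_eq_add_of_le hkK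
  rw [hL] at hK1 hK2
  set f : ℕ → ℝ := fun j => (2 * Real.log X) ^ k * ind A X (2 * H) j with hf
  have hc0 : (0 : ℝ) < (2 * Real.log X) ^ k := by positivity
  have hf0 : ∀ n, 0 ≤ f n := fun n => mul_nonneg hc0.le (ind_nonneg _ _ _ _)
  have hfs : ∀ n, 2 ^ (k0 + L) ≤ n → f n = 0 := by
    intro n hn
    simp only [hf, ind]
    rw [if_neg (by omega), mul_zero]
  have hE : ∑ n ∈ range (2 ^ (k0 + L)), E k0 f n ^ 2 ≤ 4 ^ k * (16 * C + 1) * (2 * H) := by
    have h1 := blocks_sq (L := L) hP hk1 hD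
    refine (energy h1).trans ?_
    have hHr : (1 : ℝ) ≤ H := by exact_mod_cast hH
    have e1 : ((2 * Real.log X) ^ k) ^ 2 = 4 ^ k * L0 ^ 2 := by
      rw [mul_pow, mul_pow, ← hL0, ← pow_mul, mul_comm k 2, pow_mul]
      norm_num
    have e2 : ((2 * Real.log X) ^ k) ^ 2 / 2 ^ k0 * ((2 ^ k0) ^ 2 +
        C * ((2 * H : ℕ) : ℝ) / 2 ^ k0) =
        4 ^ k * (L0 ^ 2 * 2 ^ k0 + (L0 / 2 ^ k0) ^ 2 * (C * (2 * H))) := by
      rw [e1]
      push_cast
      field_simp
    rw [e2]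
    have e3 : L0 ^ 2 * 2 ^ k0 ≤ 2 * H := by
      have e4 : L0 ^ 2 * 2 ^ k0 ≤ L0 ^ 2 * L0 := by gcongr
      have e5 : L0 ^ 2 * L0 = Real.log X ^ (3 * k) := by
        rw [hL0, ← pow_succ, ← pow_mul, mul_comm k]
      linarith
    have e6 : (L0 / 2 ^ k0) ^ 2 ≤ 16 := by
      have e7 : L0 / 2 ^ k0 ≤ 4 := by
        rw [div_le_iff₀ hp]; exact hk2r
      have e8 : 0 ≤ L0 / 2 ^ k0 := by
        apply div_nonneg _ hp.le
        linarith
      calc (L0 / 2 ^ k0) ^ 2 ≤ 4 ^ 2 := pow_le_pow_left₀ e8 e7 2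
        _ = 16 := by norm_num
    have e9 : (L0 / 2 ^ k0) ^ 2 * (C * (2 * H)) ≤ 16 * (C * (2 * H)) := by gcongr
    calc (4 : ℝ) ^ k * (L0 ^ 2 * 2 ^ k0 + (L0 / 2 ^ k0) ^ 2 * (C * (2 * H))) ≤
        4 ^ k * (2 * H + 16 * (C * (2 * H))) := by gcongr
      _ = _ := by ring
  -- the numbers of jumps
  set J' : ℕ → ℕ := fun m => if 1 ≤ m ∧ m ≤ H then J (X + m) else 0 with hJ'
  have hHr : (1 : ℝ) ≤ H := by exact_mod_cast hH
  have hmain := jump_inequality k0 L hf0 hfs hε (b := (H : ℝ)) (by linarith)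
    (by
      have : (2 : ℝ) * H < ((2 ^ (k0 + L) : ℕ) : ℝ) := by exact_mod_cast hK1
      push_cast at this; linarith) J'
    (by
      intro m _
      simp only [hJ']
      split_ifs with hm
      · obtain ⟨s, t, c1, c2⟩ := hJ (X + m) (by rw [mem_Ioc]; omega)
        refine ⟨s, t, fun i hi => ?_, c2⟩
        obtain ⟨d1, d2, d3, d4⟩ := c1 i hi
        refine ⟨by linarith, d2, d3, ?_⟩
        rw [R_eq hX hm.2 (by linarith) d3, R_eq hX hm.2 (by linarith) (by linarith),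
          ← mul_sub, abs_mul] at d4
        have hl0 : 0 ≤ Real.log ((X + m : ℕ) : ℝ) := by
          apply Real.log_nonneg
          push_cast
          have : (0 : ℝ) ≤ m := Nat.cast_nonneg _
          linarith
        have hr0 : 0 ≤ Real.log ((X + m : ℕ) : ℝ) ^ k / (2 * Real.log X) ^ k := by positivity
        have hr1 : Real.log ((X + m : ℕ) : ℝ) ^ k / (2 * Real.log X) ^ k ≤ 1 := by
          rw [div_le_one hc0]
          apply pow_le_pow_left₀ hl0
          have e : 2 * Real.log X = Real.log ((X : ℝ) ^ 2) := by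
            rw [Real.log_pow]; push_cast; ring
          rw [e]
          apply Real.log_le_log
          · push_cast
            have : (0 : ℝ) ≤ m := Nat.cast_nonneg _
            linarith
          · have hmX : (m : ℝ) ≤ X := by exact_mod_cast hm.2.trans hHX
            push_cast
            nlinarith
        rw [abs_of_nonneg hr0] at d4
        refine d4.trans_le ?_
        calc _ ≤ 1 * |AR f m (t i) - AR f m (s i)| := by gcongr
          _ = _ := one_mul _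
      · exact jumps_zero _ _ _ _)
  have hsum : ∑ n ∈ Ioc X (X + H), (J n : ℝ) ≤ ∑ m ∈ range (2 ^ (k0 + L)), (J' m : ℝ) := by
    have e1 : Ioc X (X + H) = Ico (X + 1) (X + 1 + H) := by
      ext x; rw [mem_Ioc, mem_Ico]; omega
    rw [e1, sum_Ico_eq_sum_range, Nat.add_sub_cancel_left]
    have e2 : ∑ m ∈ range H, (J (X + 1 + m) : ℝ) = ∑ m ∈ range H, (J' (m + 1) : ℝ) := by
      apply sum_congr rfl
      intro m hm
      rw [mem_range] at hm
      simp only [hJ']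
      rw [if_pos (by omega)]
      congr 2; ring
    have e3 : ∑ m ∈ range (H + 1), (J' m : ℝ) = ∑ m ∈ range H, (J' (m + 1) : ℝ) + (J' 0 : ℝ) :=
      sum_range_succ' _ _
    have e4 : ∑ m ∈ range (H + 1), (J' m : ℝ) ≤ ∑ m ∈ range (2 ^ (k0 + L)), (J' m : ℝ) := by
      apply sum_le_sum_of_subset_of_nonneg
      · intro x hx; rw [mem_range] at hx ⊢; omega
      · intro _ _ _; exact Nat.cast_nonneg _
    have e5 : (0 : ℝ) ≤ J' 0 := Nat.cast_nonneg _
    linarith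
  calc _ ≤ _ := hsum
    _ ≤ _ := hmain
    _ ≤ 1700000 / ε ^ 2 * (4 ^ k * (16 * C + 1) * (2 * H)) := by gcongr
    _ = _ := by ring

end Pool.Agent.J6H52.JumpT
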