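import Pool.Agent.J6H52.JumpT.Core
import Pool.Agent.TH977.PW.Input

/-!
# The jump inequality for sets of arguments with rough values of a system of polynomials
-/

set_option autoImplicit false

open Finset Filter Topology Polynomial

namespace Pool.Agent.J6H52.JumpT

open Pool.Agent.J6H52.Jump
open Pool.Agent.W123.RP Pool.Agent.H373R2.T7 Pool.Agent.W123.RU Pool.Agent.W123.RU.Poly
open Pool.Agent.TH464.PW
open Pool.Agent.TH977.PW (Rough upper_input)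

/-- the function has `J` jumps (see `Jumps`); only for readability of the statements -/
abbrev Bound (A : Set ℕ) (k X H : ℕ) (C : ℝ) : Prop :=
  ∀ ε : ℝ, 0 < ε → ∀ J : ℕ → ℕ,
    (∀ n ∈ Ioc X (X + H), Jumps (R A k n) ε (Real.log X ^ k) H (J n)) →
    ∑ n ∈ Ioc X (X + H), (J n : ℝ) ≤ C / ε ^ 2 * H

open Classical in
/-- **The jump inequality for the arguments with rough values of a system of polynomials.** -/
theorem main_poly {ι : Type} [Fintype ι] [Nonempty ι] (f : ι → ℤ[X]) (hf : Sys f) (θ : ℝ)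
    (hθ : 0 < θ) (hθ1 : θ ≤ 1) :
    ∃ r0 : ℕ, 2 ≤ r0 ∧ ∀ r : ℕ, r0 ≤ r → ∃ C : ℝ, 0 < C ∧ ∀ᶠ X : ℕ in atTop, ∀ H : ℕ,
      (X : ℝ) ^ θ ≤ H → 2 * H ≤ X → ∀ A : Set ℕ, (∀ m ∈ A, Rough f r m) →
        Bound A (Fintype.card ι) X H C := by
  obtain ⟨r0, hr0, h1⟩ := upper_input f hf θ hθ hθ1
  refine ⟨r0, hr0, fun r hr => ?_⟩
  obtain ⟨C1, C2, hC1, hC2, h2⟩ := h1 r hr
  refine ⟨3400000 * (4 ^ Fintype.card ι * (16 * C2 + 1)), by positivity, ?_⟩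
  have hXr : Tendsto (fun X : ℕ => (X : ℝ)) atTop atTop := tendsto_natCast_atTop_atTop
  have hpow : Tendsto (fun X : ℕ => (X : ℝ) ^ θ) atTop atTop := (tendsto_rpow_atTop hθ).comp hXr
  filter_upwards [h2 1 one_pos, logpow_rpow (3 * Fintype.card ι) 1 θ one_pos hθ,
    eventually_ge_atTop 3, hpow.eventually_ge_atTop 1] with X g1 g2 hX3 hX1
  intro H hXH hHX A hA ε hε J hJ
  have hHX' : H ≤ X := by omega
  have hX3r : (3 : ℝ) ≤ X := by exact_mod_cast hX3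
  have hlX1 : 1 ≤ Real.log X := by
    rw [Real.le_log_iff_exp_le (by linarith)]
    linarith [Real.exp_one_lt_d9]
  have hH1 : 1 ≤ H := by
    have : (1 : ℝ) ≤ H := hX1.trans hXH
    exact_mod_cast this
  have hY : (X : ℝ) ^ θ ≤ ((2 * H : ℕ) : ℝ) := by
    push_cast
    have : (0 : ℝ) ≤ H := Nat.cast_nonneg _
    linarith
  obtain ⟨q1, -, -, q4⟩ := g1 (2 * H) hY hHX
  have q5 : Real.log X ^ (3 * Fintype.card ι) ≤ H := by linarith
  have q6 : Real.log X ^ Fintype.card ι ≤ H :=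
    (pow_le_pow_right₀ hlX1 (by omega)).trans q5
  refine main (P := Rgh f r X (2 * H)) ?_ hX3 hH1 hHX' q1 q6 q5 hC2.le q4 hε hJ
  intro j hj hjA p hp hQ
  obtain ⟨i, hi⟩ := hQ
  have e : 2 * H + j + 1 + (X - 2 * H) = X + j + 1 := by omega
  rw [e] at hi
  have h3 := hA _ hjA i p (mem_pz.1 hp).2 hi
  have h4 : (p : ℝ) ≤ (X : ℝ) ^ (1 / (r : ℝ)) := mem_pz' (by positivity) hp
  have h5 : (X : ℝ) ^ (1 / (r : ℝ)) ≤ ((X + j + 1 : ℕ) : ℝ) ^ (1 / (r : ℝ)) := by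
    apply Real.rpow_le_rpow (by positivity) _ (by positivity)
    push_cast
    have : (0 : ℝ) ≤ j := Nat.cast_nonneg _
    linarith
  linarith

open Classical in
/-- the version with given lengths -/
theorem Bound.osc {A : Set ℕ} {k X H : ℕ} {C : ℝ} (h : Bound A k X H C) {ε : ℝ} (hε : 0 < ε)
    (r : ℕ) (T : ℕ → ℝ) (hT0 : Real.log X ^ k ≤ T 0) (hT : ∀ i < r, T i ≤ T (i + 1))
    (hTr : T r ≤ H) :
    ∑ i ∈ range r, (((Ioc X (X + H)).filter (fun n : ℕ =>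
        ∃ y y' : ℝ, T i ≤ y ∧ y ≤ y' ∧ y' ≤ T (i + 1) ∧ ε < |R A k n y' - R A k n y|)).card : ℝ) ≤
      C / ε ^ 2 * H := by
  have h2 := h ε hε (fun n => ((range r).filter (fun i =>
    ∃ y y', T i ≤ y ∧ y ≤ y' ∧ y' ≤ T (i + 1) ∧ ε < |R A k n y' - R A k n y|)).card)
    (fun n _ => by
      have h3 := (jumps_blocks (R A k n) hε T r hT).2
      exact h3.mono hT0 hTr)
  refine le_trans (le_of_eq ?_) h2
  have h4 : ∀ (s : Finset ℕ) (P : ℕ → Prop), ((s.filter P).card : ℝ) =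
      ∑ i ∈ s, if P i then (1 : ℝ) else 0 := by
    intro s P
    rw [← sum_filter, sum_const, nsmul_eq_mul, mul_one]
  simp only [h4]
  rw [sum_comm]

/-- the system `X + g i` -/
noncomputable def lin {k : ℕ} (g : Fin k → ℕ) (i : Fin k) : ℤ[X] := C (1 : ℤ) * X + C (g i : ℤ)

lemma lin_eval {k : ℕ} (g : Fin k → ℕ) (i : Fin k) (m : ℕ) :
    (lin g i).eval (m : ℤ) = ((m + g i : ℕ) : ℤ) := by
  unfold lin
  simp

lemma lin_sys {k : ℕ} (g : Fin k → ℕ) (hg : Function.Injective g)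
    (hadm : ∀ p : ℕ, p.Prime → ∃ m : ℕ, ∀ i, ¬ p ∣ m + g i) : Sys (lin g) where
  irr i := irreducible_C_mul_X_add_C one_ne_zero isRelPrime_one_left
  deg i := by
    unfold lin
    rw [natDegree_linear one_ne_zero]
    norm_num
  lead i := by
    unfold lin
    rw [leadingCoeff_linear one_ne_zero]
    norm_num
  inj i j h := by
    apply hg
    have h1 : (lin g i).eval ((0 : ℕ) : ℤ) = (lin g j).eval ((0 : ℕ) : ℤ) := by rw [h]
    rw [lin_eval, lin_eval] at h1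
    have h2 : 0 + g i = 0 + g j := by exact_mod_cast h1
    omega
  adm p hp := by
    obtain ⟨m, hm⟩ := hadm p hp
    refine ⟨m, fun i hi => hm i ?_⟩
    rw [lin_eval] at hi
    exact_mod_cast hi

lemma lin_rough {k : ℕ} (g : Fin k → ℕ) (r m : ℕ) (h : ∀ i, ∀ p : ℕ, p.Prime → p ∣ m + g i →
    (m : ℝ) ^ (1 / (r : ℝ)) < (p : ℝ)) : Rough (lin g) r m := by
  intro i p hp hd
  rw [lin_eval] at hd
  exact h i p hp (by exact_mod_cast hd)

/-- **The jump inequality for sets of rough tuples.** -/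
theorem main_tuple {k : ℕ} (hk : 0 < k) (g : Fin k → ℕ) (hg : Function.Injective g)
    (hadm : ∀ p : ℕ, p.Prime → ∃ m : ℕ, ∀ i, ¬ p ∣ m + g i) (θ : ℝ) (hθ : 0 < θ)
    (hθ1 : θ ≤ 1) :
    ∃ r0 : ℕ, 2 ≤ r0 ∧ ∀ r : ℕ, r0 ≤ r → ∃ C : ℝ, 0 < C ∧ ∀ᶠ X : ℕ in atTop, ∀ H : ℕ,
      (X : ℝ) ^ θ ≤ H → 2 * H ≤ X → ∀ A : Set ℕ, (∀ m ∈ A, ∀ i, ∀ p : ℕ, p.Prime →
        p ∣ m + g i → (m : ℝ) ^ (1 / (r : ℝ)) < (p : ℝ)) → Bound A k X H C := by
  have : Nonempty (Fin k) := ⟨⟨0, hk⟩⟩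
  obtain ⟨r0, hr0, h⟩ := main_poly (lin g) (lin_sys g hg hadm) θ hθ hθ1
  refine ⟨r0, hr0, fun r hr => ?_⟩
  obtain ⟨C, hC, h1⟩ := h r hr
  refine ⟨C, hC, ?_⟩
  filter_upwards [h1] with X h2 H h3 h4 A hA
  have h5 := h2 H h3 h4 A fun m hm => lin_rough g r m (hA m hm)
  rwa [Fintype.card_fin] at h5

/-! ### consecutive powers -/

/-- the number of integers strictly between `n ^ a` and `(n + 1) ^ a` -/
lemma between (a n : ℕ) (ha : 2 ≤ a) (hn : 1 ≤ n) :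
    n ^ a + ((n + 1) ^ a - 1 - n ^ a) = (n + 1) ^ a - 1 ∧ n ^ (a - 1) ≤ (n + 1) ^ a - 1 - n ^ a ∧
      (n + 1) ^ a - 1 - n ^ a ≤ 2 ^ a * n ^ (a - 1) := by
  obtain ⟨b, rfl⟩ : ∃ b, a = b + 2 := ⟨a - 2, by omega⟩
  have h1 : n ^ (b + 2) + n ^ (b + 1) + 1 ≤ (n + 1) ^ (b + 2) := by
    have e1 : n ^ (b + 1) + 1 ≤ (n + 1) ^ (b + 1) :=
      Nat.pow_lt_pow_left (Nat.lt_succ_self n) (by omega)
    have e2 : (n + 1) ^ (b + 2) = n * (n + 1) ^ (b + 1) + (n + 1) ^ (b + 1) := by ring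
    have e3 : n ^ (b + 2) = n * n ^ (b + 1) := by ring
    have e4 : n * n ^ (b + 1) ≤ n * (n + 1) ^ (b + 1) := Nat.mul_le_mul_left _ (by omega)
    omega
  have h2 : (n + 1) ^ (b + 2) ≤ n ^ (b + 2) + 2 ^ (b + 2) * n ^ (b + 1) := by
    rw [add_pow, Finset.sum_range_succ]
    simp only [Nat.cast_id]
    have e2 : n ^ (b + 2) * 1 ^ (b + 2 - (b + 2)) * (b + 2).choose (b + 2) = n ^ (b + 2) := by
      rw [Nat.choose_self]
      simp
    have e3 : ∑ x ∈ Finset.range (b + 2), n ^ x * 1 ^ (b + 2 - x) * (b + 2).choose x ≤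
        ∑ x ∈ Finset.range (b + 2), n ^ (b + 1) * (b + 2).choose x := by
      apply Finset.sum_le_sum
      intro x hx
      rw [Finset.mem_range] at hx
      rw [one_pow, mul_one]
      exact Nat.mul_le_mul_right _ (Nat.pow_le_pow_right hn (by omega))
    have e4 : ∑ x ∈ Finset.range (b + 2), n ^ (b + 1) * (b + 2).choose x ≤
        2 ^ (b + 2) * n ^ (b + 1) := by
      rw [← Finset.mul_sum, mul_comm]
      apply Nat.mul_le_mul_right
      rw [← Nat.sum_range_choose (b + 2)]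
      exact Finset.sum_le_sum_of_subset (Finset.range_subset_range.2 (by omega))
    omega
  have e5 : b + 2 - 1 = b + 1 := by omega
  rw [e5]
  refine ⟨by omega, by omega, by omega⟩

/-- the distance of consecutive powers -/
lemma gap_facts (a n : ℕ) (ha : 2 ≤ a) (hn : 2 ^ (a + 1) ≤ n) :
    n ^ a + ((n + 1) ^ a - 1 - n ^ a) = (n + 1) ^ a - 1 ∧
      (n + 1) ^ a - 1 - n ^ a ≤ 2 ^ a * n ^ (a - 1) ∧
      2 * ((n + 1) ^ a - 1 - n ^ a) ≤ n ^ a ∧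
      ((n ^ a : ℕ) : ℝ) ^ (1 / 2 : ℝ) ≤ (((n + 1) ^ a - 1 - n ^ a : ℕ) : ℝ) ∧
      Ioo (n ^ a) ((n + 1) ^ a) = Ioc (n ^ a) (n ^ a + ((n + 1) ^ a - 1 - n ^ a)) := by
  have h2a : 1 ≤ 2 ^ (a + 1) := Nat.one_le_two_pow
  have hn1 : 1 ≤ n := h2a.trans hn
  obtain ⟨b1, b2, b3⟩ := between a n ha hn1
  obtain ⟨Y, hY⟩ : ∃ Y, Y = (n + 1) ^ a - 1 - n ^ a := ⟨_, rfl⟩
  rw [← hY] at b1 b2 b3 ⊢
  refine ⟨b1, b3, ?_, ?_, ?_⟩
  · calc 2 * Y ≤ 2 * (2 ^ a * n ^ (a - 1)) := Nat.mul_le_mul_left _ b3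
      _ = 2 ^ (a + 1) * n ^ (a - 1) := by ring
      _ ≤ n * n ^ (a - 1) := Nat.mul_le_mul_right _ hn
      _ = n ^ a := by rw [← pow_succ']; congr 1; omega
  · have e1 : (n : ℝ) ^ (a - 1) ≤ Y := by exact_mod_cast b2
    refine le_trans ?_ e1
    have hn0 : (1 : ℝ) ≤ n := by exact_mod_cast hn1
    push_cast
    rw [← Real.rpow_natCast, ← Real.rpow_mul (by linarith), ← Real.rpow_natCast]
    apply Real.rpow_le_rpow_of_exponent_le hn0
    have e2 : ((a - 1 : ℕ) : ℝ) = (a : ℝ) - 1 := by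
      rw [Nat.cast_sub (by omega)]
      simp
    rw [e2]
    have e3 : (2 : ℝ) ≤ a := by exact_mod_cast ha
    linarith
  · ext m
    rw [Finset.mem_Ioo, Finset.mem_Ioc, b1]
    have : 1 ≤ (n + 1) ^ a := Nat.one_le_pow _ _ (by omega)
    omega

end Pool.Agent.J6H52.JumpT
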